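import Pool.Graph.R_pool_sql_team_seeded_2aa45f1a.Q148.HN.Var

/-!
# Linear functionals of Hodge polynomials: the algebra

Laurent polynomials with the symmetries of Hodge polynomials, and linear functionals on them.
-/

set_option autoImplicit false

open AddMonoidAlgebra Pool.Agent.Q148.HN

namespace Pool.Agent.Helper13.IH

/-- The symmetrised monomial of degree `N`. -/
noncomputable def Sym (N r s : ℤ) : Lau :=
  mon r s + mon s r + mon (N - r) (N - s) + mon (N - s) (N - r)

lemma sym_swap (N r s : ℤ) : Sym N r s = Sym N s r := by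
  unfold Sym; ring

lemma sym_dual (N r s : ℤ) : Sym N r s = Sym N (N - r) (N - s) := by
  unfold Sym
  rw [sub_sub_cancel, sub_sub_cancel]
  ring

lemma L_sym (N r s : ℤ) : L * Sym N r s = Sym (N + 1) r s + Sym (N + 1) (r + 1) (s + 1) := by
  unfold L Sym
  simp only [add_mul, mul_add, mon_mul]
  have e1 : N + 1 - (r + 1) = N - r := by ring
  have e2 : N + 1 - (s + 1) = N - s := by ring
  have e3 : 1 + (N - r) = N + 1 - r := by ring
  have e4 : 1 + (N - s) = N + 1 - s := by ring
  rw [e1, e2, e3, e4, zero_add, zero_add, zero_add, zero_add, add_comm 1 r, add_comm 1 s]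
  ring

lemma S_sym (N r s : ℤ) : S * Sym N r s = Sym (N + 1) (r + 1) s + Sym (N + 1) r (s + 1) := by
  unfold S Sym
  simp only [add_mul, mul_add, mon_mul]
  have e1 : N + 1 - (r + 1) = N - r := by ring
  have e2 : N + 1 - (s + 1) = N - s := by ring
  have e3 : 1 + (N - r) = N + 1 - r := by ring
  have e4 : 1 + (N - s) = N + 1 - s := by ring
  rw [e1, e2, e3, e4, zero_add, zero_add, zero_add, zero_add, add_comm 1 r, add_comm 1 s]
  ring

lemma U_sym (N r s : ℤ) : U * Sym N r s = Sym (N + 2) (r + 1) (s + 1) := by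
  unfold U Sym
  simp only [mul_add, mon_mul]
  have e1 : N + 2 - (r + 1) = 1 + (N - r) := by ring
  have e2 : N + 2 - (s + 1) = 1 + (N - s) := by ring
  rw [e1, e2, add_comm 1 r, add_comm 1 s]

/-- `Φ` is divisible by `M` on all `G L^i S^j U^k` of degree `T`, where `G` has degree `e`. -/
def Van (M : ℤ) (Φ : Lau →+ ℤ) (T : ℕ) (G : Lau) (e : ℕ) : Prop :=
  ∀ i j k : ℕ, i + j + 2 * k + e = T → M ∣ Φ (G * (L ^ i * S ^ j * U ^ k))

variable {M : ℤ} {Φ : Lau →+ ℤ} {T : ℕ} {G G' : Lau} {e : ℕ}

lemma Van.add (h : Van M Φ T G e) (h' : Van M Φ T G' e) : Van M Φ T (G + G') e := by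
  intro i j k hT
  rw [add_mul, map_add]
  exact dvd_add (h i j k hT) (h' i j k hT)

lemma Van.sub (h : Van M Φ T G e) (h' : Van M Φ T G' e) : Van M Φ T (G - G') e := by
  intro i j k hT
  rw [sub_mul, map_sub]
  exact dvd_sub (h i j k hT) (h' i j k hT)

lemma Van.half (hM : ∀ z : ℤ, M ∣ 2 * z → M ∣ z) (h : Van M Φ T (G + G) e) : Van M Φ T G e := by
  intro i j k hT
  have h1 := h i j k hT
  rw [add_mul, map_add, ← two_mul] at h1
  exact hM _ h1

lemma Van.mulL (h : Van M Φ T G e) : Van M Φ T (L * G) (e + 1) := by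
  intro i j k hT
  have h1 := h (i + 1) j k (by omega)
  have h2 : L * G * (L ^ i * S ^ j * U ^ k) = G * (L ^ (i + 1) * S ^ j * U ^ k) := by ring
  rwa [h2]

lemma Van.mulS (h : Van M Φ T G e) : Van M Φ T (S * G) (e + 1) := by
  intro i j k hT
  have h1 := h i (j + 1) k (by omega)
  have h2 : S * G * (L ^ i * S ^ j * U ^ k) = G * (L ^ i * S ^ (j + 1) * U ^ k) := by ring
  rwa [h2]

lemma Van.mulU (h : Van M Φ T G e) : Van M Φ T (U * G) (e + 2) := by
  intro i j k hT
  have h1 := h i j (k + 1) (by omega)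
  have h2 : U * G * (L ^ i * S ^ j * U ^ k) = G * (L ^ i * S ^ j * U ^ (k + 1)) := by ring
  rwa [h2]

/-- All symmetrised monomials are obtained. -/
lemma van_sym (hM : ∀ z : ℤ, M ∣ 2 * z → M ∣ z) (h : Van M Φ T 1 0) :
    ∀ (N : ℕ) (r s : ℤ), 0 ≤ r → r ≤ N → 0 ≤ s → s ≤ N → Van M Φ T (Sym N r s) N := by
  intro N
  induction N using Nat.strong_induction_on with
  | _ N ih =>
    -- the interior
    have inner : ∀ r s : ℤ, 1 ≤ r → r + 1 ≤ N → 1 ≤ s → s + 1 ≤ N → Van M Φ T (Sym N r s) N := by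
      intro r s h1 h2 h3 h4
      obtain ⟨K, rfl⟩ : ∃ K : ℕ, N = K + 2 := ⟨N - 2, by omega⟩
      have h5 := (ih K (by omega) (r - 1) (s - 1) (by omega) (by push_cast at h2; omega) (by omega)
        (by push_cast at h4; omega)).mulU
      rw [U_sym] at h5
      have e1 : ((K + 2 : ℕ) : ℤ) = (K : ℤ) + 2 := by push_cast; ring
      rw [e1]
      rwa [sub_add_cancel, sub_add_cancel] at h5
    -- the side `s = 0`
    have side : ∀ r : ℤ, 0 ≤ r → r ≤ N → Van M Φ T (Sym N r 0) N := by
      intro r h1 h2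
      rcases Nat.eq_zero_or_pos N with rfl | hN
      · have hr : r = 0 := by push_cast at h2; omega
        subst hr
        have e1 : Sym ((0 : ℕ) : ℤ) 0 0 = 1 + 1 + 1 + 1 := by
          unfold Sym
          have e2 : ((0 : ℕ) : ℤ) - 0 = 0 := by simp
          rw [e2, mon_zero]
        rw [e1]
        exact ((h.add h).add h).add h
      · obtain ⟨K, rfl⟩ : ∃ K : ℕ, N = K + 1 := ⟨N - 1, by omega⟩
        have e1 : ((K + 1 : ℕ) : ℤ) = (K : ℤ) + 1 := by push_cast; ring
        rw [e1] at h2 ⊢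
        rcases lt_trichotomy r K with h3 | h3 | h3
        · have h4 := (ih K (by omega) r 0 h1 (by omega) le_rfl (by omega)).mulL
          rw [L_sym] at h4
          have h5 := inner (r + 1) 1 (by omega) (by push_cast; omega) le_rfl (by push_cast; omega)
          rw [e1] at h5
          rw [zero_add] at h4
          have h6 := h4.sub h5
          rwa [add_sub_cancel_right] at h6
        · subst h3
          have h4 := (ih K (by omega) K 0 h1 (by omega) le_rfl (by omega)).mulL
          rw [L_sym] at h4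
          have h5 : Sym ((K : ℤ) + 1) (K + 1) (0 + 1) = Sym ((K : ℤ) + 1) K 0 := by
            rw [sym_dual, sym_swap]
            congr 1 <;> ring
          rw [h5] at h4
          exact h4.half hM
        · have hr : r = K + 1 := by omega
          subst hr
          have h4 := (ih K (by omega) K 0 (by omega) (by omega) le_rfl (by omega)).mulS
          rw [S_sym] at h4
          rcases Nat.eq_zero_or_pos K with hK | hK
          · subst hK
            have h5 : Sym (((0 : ℕ) : ℤ) + 1) ((0 : ℕ) : ℤ) (0 + 1) =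
                Sym (((0 : ℕ) : ℤ) + 1) (((0 : ℕ) : ℤ) + 1) 0 := by
              rw [sym_swap]
              congr 1
            rw [h5] at h4
            exact h4.half hM
          · have h5 := inner K 1 (by omega) (by push_cast; omega) le_rfl (by push_cast; omega)
            rw [e1] at h5
            rw [zero_add] at h4
            have h6 := h4.sub h5
            rwa [add_sub_cancel_right] at h6
    intro r s h1 h2 h3 h4
    by_cases hs : s = 0
    · subst hs; exact side r h1 h2
    by_cases hr : r = 0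
    · subst hr; rw [sym_swap]; exact side s h3 h4
    by_cases hs' : s = N
    · rw [sym_dual]
      have e1 : (N : ℤ) - s = 0 := by omega
      rw [e1]
      exact side _ (by omega) (by omega)
    by_cases hr' : r = N
    · rw [sym_dual, sym_swap]
      have e1 : (N : ℤ) - r = 0 := by omega
      rw [e1]
      exact side _ (by omega) (by omega)
    exact inner r s (by omega) (by omega) (by omega) (by omega)

/-- From products of lines, elliptic curves and planes to the `L^i S^j U^k`. -/
lemma van_one (h : ∀ i j k : ℕ, i + j + 2 * k = T → M ∣ Φ (L ^ i * Ell ^ j * Pl ^ k)) :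
    Van M Φ T 1 0 := by
  have hA : ∀ j i c k : ℕ, i + j + c + 2 * k = T → M ∣ Φ (L ^ i * S ^ j * Ell ^ c * Pl ^ k) := by
    intro j
    induction j with
    | zero =>
      intro i c k hT
      have h1 := h i c k (by omega)
      rwa [pow_zero, mul_one]
    | succ j ih =>
      intro i c k hT
      have h1 := ih i (c + 1) k (by omega)
      have h2 := ih (i + 1) c k (by omega)
      have h3 : L ^ i * S ^ (j + 1) * Ell ^ c * Pl ^ k = L ^ i * S ^ j * Ell ^ (c + 1) * Pl ^ k -
          L ^ (i + 1) * S ^ j * Ell ^ c * Pl ^ k := by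
        rw [ell_eq]; ring
      rw [h3, map_sub]
      exact dvd_sub h1 h2
  have hB : ∀ k i j l : ℕ, i + j + 2 * k + 2 * l = T → M ∣ Φ (L ^ i * S ^ j * U ^ k * Pl ^ l) := by
    intro k
    induction k with
    | zero =>
      intro i j l hT
      have h1 := hA j i 0 l (by omega)
      rw [pow_zero, mul_one] at h1
      rwa [pow_zero, mul_one]
    | succ k ih =>
      intro i j l hT
      have h1 := ih (i + 2) j l (by omega)
      have h2 := ih i j (l + 1) (by omega)
      have hU : U = L * L - Pl := by rw [← plane_eq]; ring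
      have h3 : L ^ i * S ^ j * U ^ (k + 1) * Pl ^ l = L ^ (i + 2) * S ^ j * U ^ k * Pl ^ l -
          L ^ i * S ^ j * U ^ k * Pl ^ (l + 1) := by
        have h4 : L ^ i * S ^ j * U ^ (k + 1) * Pl ^ l = L ^ i * S ^ j * U ^ k * U * Pl ^ l := by
          ring
        rw [h4]
        nth_rewrite 2 [hU]
        ring
      rw [h3, map_sub]
      exact dvd_sub h1 h2
  intro i j k hT
  have h1 := hB k i j 0 (by omega)
  rw [pow_zero, mul_one] at h1
  rwa [one_mul]

/-- The linear combination with the coefficients `c` of the coefficients. -/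
noncomputable def val (c : (ℤ × ℤ) →₀ ℤ) : Lau →+ ℤ where
  toFun P := c.sum fun ab z => z * P.coeff ab
  map_zero' := by simp
  map_add' P Q := by
    rw [← Finsupp.sum_add]
    refine Finsupp.sum_congr fun ab _ => ?_
    rw [coeff_add', mul_add]

lemma val_apply (c : (ℤ × ℤ) →₀ ℤ) (P : Lau) :
    val c P = c.sum fun ab z => z * P.coeff ab := rfl

/-- The symmetrisation of the coefficients, in dimension `d`. -/
noncomputable def Cs (c : (ℤ × ℤ) →₀ ℤ) (d : ℤ) : (ℤ × ℤ) →₀ ℤ :=
  c + c.mapDomain (fun x => (x.2, x.1)) + c.mapDomain (fun x => (d - x.1, d - x.2)) +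
    c.mapDomain (fun x => (d - x.2, d - x.1))

lemma cs_apply (c : (ℤ × ℤ) →₀ ℤ) (d x y : ℤ) :
    Cs c d (x, y) = c (x, y) + c (y, x) + c (d - x, d - y) + c (d - y, d - x) := by
  have h1 : Function.Injective (fun x : ℤ × ℤ => (x.2, x.1)) := by
    rintro ⟨a, b⟩ ⟨a', b'⟩ h
    simp only [Prod.mk.injEq] at h ⊢
    exact ⟨h.2, h.1⟩
  have h2 : Function.Injective (fun x : ℤ × ℤ => (d - x.1, d - x.2)) := by
    rintro ⟨a, b⟩ ⟨a', b'⟩ h
    simp only [Prod.mk.injEq] at h ⊢
    omega
  have h3 : Function.Injective (fun x : ℤ × ℤ => (d - x.2, d - x.1)) := by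
    rintro ⟨a, b⟩ ⟨a', b'⟩ h
    simp only [Prod.mk.injEq] at h ⊢
    omega
  have e1 : c.mapDomain (fun x : ℤ × ℤ => (x.2, x.1)) (x, y) = c (y, x) := by
    have := Finsupp.mapDomain_apply h1 c (y, x)
    exact this
  have e2 : c.mapDomain (fun x : ℤ × ℤ => (d - x.1, d - x.2)) (x, y) = c (d - x, d - y) := by
    have := Finsupp.mapDomain_apply h2 c (d - x, d - y)
    simp only [sub_sub_cancel] at this
    exact this
  have e3 : c.mapDomain (fun x : ℤ × ℤ => (d - x.2, d - x.1)) (x, y) = c (d - y, d - x) := by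
    have := Finsupp.mapDomain_apply h3 c (d - y, d - x)
    simp only [sub_sub_cancel] at this
    exact this
  unfold Cs
  rw [Finsupp.add_apply, Finsupp.add_apply, Finsupp.add_apply, e1, e2, e3]

lemma cs_sum (c : (ℤ × ℤ) →₀ ℤ) (d : ℤ) (g : ℤ × ℤ → ℤ) :
    ((Cs c d).sum fun x z => z * g x) = (c.sum fun x z => z * g x) +
      (c.sum fun x z => z * g (x.2, x.1)) + (c.sum fun x z => z * g (d - x.1, d - x.2)) +
      (c.sum fun x z => z * g (d - x.2, d - x.1)) := by
  unfold Cs
  rw [Finsupp.sum_add_index' (by simp) (by intro a b b'; ring),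
    Finsupp.sum_add_index' (by simp) (by intro a b b'; ring),
    Finsupp.sum_add_index' (by simp) (by intro a b b'; ring),
    Finsupp.sum_mapDomain_index (by simp) (by intro a b b'; ring),
    Finsupp.sum_mapDomain_index (by simp) (by intro a b b'; ring),
    Finsupp.sum_mapDomain_index (by simp) (by intro a b b'; ring)]

/-- The symmetries of a Hodge polynomial of degree `n`. -/
structure Sy (P : Lau) (n : ℤ) : Prop where
  symm : ∀ p q, P.coeff (p, q) = P.coeff (q, p)
  serre : ∀ p q, P.coeff (p, q) = P.coeff (n - p, n - q)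

lemma val_cs (c : (ℤ × ℤ) →₀ ℤ) {P : Lau} {d : ℤ} (h : Sy P d) :
    ((Cs c d).sum fun x z => z * P.coeff x) = 2 * (2 * val c P) := by
  rw [cs_sum]
  have e1 : (c.sum fun x z => z * P.coeff (x.2, x.1)) = val c P := by
    rw [val_apply]
    refine Finsupp.sum_congr fun x _ => ?_
    rw [h.symm]
  have e2 : (c.sum fun x z => z * P.coeff (d - x.1, d - x.2)) = val c P := by
    rw [val_apply]
    refine Finsupp.sum_congr fun x _ => ?_
    rw [← h.serre]
  have e3 : (c.sum fun x z => z * P.coeff (d - x.2, d - x.1)) = val c P := by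
    rw [val_apply]
    refine Finsupp.sum_congr fun x _ => ?_
    rw [← h.serre, h.symm]
  rw [e1, e2, e3, ← val_apply]
  ring

/-- The value of the functional on `P Sym(r, s)`. -/
lemma val_sym (c : (ℤ × ℤ) →₀ ℤ) {P : Lau} {n : ℤ} (h : Sy P n) (N r s : ℤ) :
    val c (P * Sym N r s) =
      (Cs c (n + N)).sum fun x z => z * P.coeff (x.1 - r, x.2 - s) := by
  rw [cs_sum c (n + N) (fun x => P.coeff (x.1 - r, x.2 - s))]
  unfold Sym
  rw [mul_add, mul_add, mul_add, map_add, map_add, map_add]
  have e0 : val c (P * mon r s) = c.sum fun x z => z * P.coeff (x.1 - r, x.2 - s) := by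
    rw [val_apply]
    refine Finsupp.sum_congr fun x _ => ?_
    rw [← coeff_mon]
  have e1 : val c (P * mon s r) = c.sum fun x z => z * P.coeff (x.2 - r, x.1 - s) := by
    rw [val_apply]
    refine Finsupp.sum_congr fun x _ => ?_
    rw [h.symm (x.2 - r), ← coeff_mon]
  have e2 : val c (P * mon (N - r) (N - s)) =
      c.sum fun x z => z * P.coeff (n + N - x.1 - r, n + N - x.2 - s) := by
    rw [val_apply]
    refine Finsupp.sum_congr fun x _ => ?_
    have a1 : n - (n + N - x.1 - r) = x.1 - (N - r) := by ring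
    have a2 : n - (n + N - x.2 - s) = x.2 - (N - s) := by ring
    rw [h.serre (n + N - x.1 - r), a1, a2, ← coeff_mon]
  have e3 : val c (P * mon (N - s) (N - r)) =
      c.sum fun x z => z * P.coeff (n + N - x.2 - r, n + N - x.1 - s) := by
    rw [val_apply]
    refine Finsupp.sum_congr fun x _ => ?_
    have a1 : n - (n + N - x.1 - s) = x.1 - (N - s) := by ring
    have a2 : n - (n + N - x.2 - r) = x.2 - (N - r) := by ring
    rw [h.serre (n + N - x.2 - r), a1, a2, h.symm, ← coeff_mon]
  rw [e0, e1, e2, e3]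

/-- The support of the functional is in the box `[n, d - n]²`. -/
def InBox (n d : ℤ) (c : (ℤ × ℤ) →₀ ℤ) : Prop :=
  ∀ x ∈ c.support, n ≤ x.1 ∧ x.1 + n ≤ d ∧ n ≤ x.2 ∧ x.2 + n ≤ d

lemma cs_box {n d : ℤ} {c : (ℤ × ℤ) →₀ ℤ} (h : InBox n d c) {x y : ℤ} (hx : Cs c d (x, y) ≠ 0) :
    n ≤ x ∧ x + n ≤ d ∧ n ≤ y ∧ y + n ≤ d := by
  rw [cs_apply] at hx
  by_contra hn
  apply hx
  have key : ∀ a b : ℤ, ¬ (n ≤ a ∧ a + n ≤ d ∧ n ≤ b ∧ b + n ≤ d) → c (a, b) = 0 := by
    intro a b hab
    by_contra hc
    exact hab (h (a, b) (Finsupp.mem_support_iff.mpr hc))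
  rw [key x y hn, key y x (by omega), key (d - x) (d - y) (by omega),
    key (d - y) (d - x) (by omega)]
  simp

/-- **Core.** If the functional is divisible by `M` on all products of `P` with the Hodge polynomials of
products of lines, elliptic curves and planes, then `P` is divisible by `M`. -/
lemma core (hM2 : ∀ z : ℤ, M ∣ 2 * z → M ∣ z) (hMp : ∀ x y : ℤ, M ∣ x * y → M ∣ x ∨ M ∣ y)
    (P : Lau) (n : ℤ) (T : ℕ) (hP : Sy P n)
    (supp : ∀ p q, P.coeff (p, q) ≠ 0 → 0 ≤ p ∧ p ≤ n ∧ 0 ≤ q ∧ q ≤ n) (c : (ℤ × ℤ) →₀ ℤ)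
    (box : InBox n (n + T) c) (hc : ∃ w, ¬ M ∣ Cs c (n + T) w)
    (h : ∀ i j k : ℕ, i + j + 2 * k = T → M ∣ val c (P * (L ^ i * Ell ^ j * Pl ^ k))) :
    ∀ p q, M ∣ P.coeff (p, q) := by
  classical
  by_contra hcon
  push Not at hcon
  obtain ⟨p0, q0, h0⟩ := hcon
  set C := Cs c (n + T) with hC
  obtain ⟨w0, hw0⟩ := hc
  -- the largest place of `C`
  obtain ⟨w, hw, hwmax⟩ := (C.support.filter fun x => ¬ M ∣ C x).exists_max_image
    (fun x => toLex x) ⟨w0, by
      rw [Finset.mem_filter, Finsupp.mem_support_iff]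
      exact ⟨fun h1 => hw0 (by rw [h1]; exact dvd_zero _), hw0⟩⟩
  -- the smallest place of `P`
  obtain ⟨z, hz, hzmin⟩ := (P.coeff.support.filter fun x => ¬ M ∣ P.coeff x).exists_min_image
    (fun x => toLex x) ⟨(p0, q0), by
      rw [Finset.mem_filter, Finsupp.mem_support_iff]
      exact ⟨fun h1 => h0 (by rw [h1]; exact dvd_zero _), h0⟩⟩
  rw [Finset.mem_filter, Finsupp.mem_support_iff] at hw hz
  obtain ⟨w1, w2⟩ := w
  obtain ⟨z1, z2⟩ := z
  have bw := cs_box box hw.1
  have bz := supp z1 z2 hz.1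
  -- the functional on the symmetrised monomial
  have hΦ : Van M ((val c).comp (AddMonoidHom.mulLeft P)) T 1 0 := van_one (fun i j k hT => h i j k hT)
  have h1 := van_sym hM2 hΦ T (w1 - z1) (w2 - z2) (by omega) (by omega) (by omega) (by omega)
    0 0 0 (by omega)
  rw [pow_zero, pow_zero, pow_zero, mul_one, mul_one, mul_one] at h1
  change M ∣ val c (P * Sym T (w1 - z1) (w2 - z2)) at h1
  rw [val_sym c hP, ← hC] at h1
  -- only one term counts
  have h2 : M ∣ (C.sum fun x z => z * P.coeff (x.1 - (w1 - z1), x.2 - (w2 - z2))) -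
      C (w1, w2) * P.coeff (z1, z2) := by
    have h3 : C (w1, w2) * P.coeff (z1, z2) =
        ∑ x ∈ C.support, if x = (w1, w2) then C (w1, w2) * P.coeff (z1, z2) else 0 := by
      rw [Finset.sum_ite_eq', if_pos (Finsupp.mem_support_iff.mpr hw.1)]
    rw [h3, Finsupp.sum, ← Finset.sum_sub_distrib]
    refine Finset.dvd_sum fun x hx => ?_
    by_cases hxw : x = (w1, w2)
    · rw [if_pos hxw, hxw]
      have a1 : w1 - (w1 - z1) = z1 := by ring
      have a2 : w2 - (w2 - z2) = z2 := by ring
      simp only [a1, a2, sub_self]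
      exact dvd_zero _
    · rw [if_neg hxw, sub_zero]
      by_cases hx1 : M ∣ C x
      · exact Dvd.dvd.mul_right hx1 _
      · refine Dvd.dvd.mul_left ?_ _
        by_contra hx2
        have h4 := hwmax x (by rw [Finset.mem_filter]; exact ⟨hx, hx1⟩)
        have h5 := hzmin (x.1 - (w1 - z1), x.2 - (w2 - z2)) (by
          rw [Finset.mem_filter, Finsupp.mem_support_iff]
          exact ⟨fun h6 => hx2 (by rw [h6]; exact dvd_zero _), hx2⟩)
        obtain ⟨x1, x2⟩ := x
        rw [Prod.Lex.toLex_le_toLex] at h4 h5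
        simp only at h4 h5
        apply hxw
        rw [Prod.mk.injEq]
        omega
  have h6 := (dvd_sub_right h1).mp h2
  rcases hMp _ _ h6 with h7 | h7
  · exact hw.2 h7
  · exact hz.2 h7

end Pool.Agent.Helper13.IH
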