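import Pool.Agent.Helper13.IH.Alg

/-!
# Linear combinations of interior Hodge numbers: varieties
-/

set_option autoImplicit false

open AddMonoidAlgebra Pool.Agent.Q148.HN

namespace Pool.Agent.Helper13.IH

/-- The standard properties `IsHodge` (library), Hodge numbers are not negative, `curve g` is a curve of
genus `g` and `plane` the projective plane. -/
structure IsGeo {V : Type} [CommMonoid V] (D : HodgeData V) (curve : ℕ → V) (plane : V) : Prop where
  hodge : IsHodge D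
  nonneg : ∀ X p q, 0 ≤ D.h X p q
  curve : ∀ g : ℕ, Has D (curve g) 1 (L + (g : Lau) * S)
  plane : Has D plane 2 Pl

/-- The linear combination `∑ c(a,b) h^{a,b}(X)`. -/
noncomputable def comb {V : Type} (D : HodgeData V) (c : (ℤ × ℤ) →₀ ℤ) (X : V) : ℤ :=
  c.sum fun ab z => z * D.h X ab.1 ab.2

/-- The sum of all Hodge numbers of `X`: the sum of all Betti numbers. -/
noncomputable def betti {V : Type} (D : HodgeData V) (X : V) : ℤ := (D.hodge X).coeff.sum fun _ z => z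

/-- Some variety of dimension `d` has a value of the combination which is not divisible by `ℓ`. -/
def Nontriv {V : Type} (D : HodgeData V) (ℓ d : ℕ) (c : (ℤ × ℤ) →₀ ℤ) : Prop :=
  ∃ Z, D.dim Z = d ∧ ¬ (ℓ : ℤ) ∣ comb D c Z

/-- The combination is a derived invariant modulo `ℓ` in dimension `d`. -/
def Invar {V : Type} (D : HodgeData V) (ℓ : ℕ) (𝒞 : Set V) (d : ℕ) (c : (ℤ × ℤ) →₀ ℤ) : Prop :=
  ∀ X ∈ 𝒞, ∀ Y, D.deq X Y → D.dim X = d → comb D c X ≡ comb D c Y [ZMOD ℓ]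

/-- In dimension `d` the values of the combination for derived equivalent varieties differ by `o(b)`, where
`b` is the sum of the Betti numbers. -/
def Approx {V : Type} (D : HodgeData V) (𝒞 : Set V) (d : ℕ) (c : (ℤ × ℤ) →₀ ℤ) : Prop :=
  ∀ ε : ℝ, 0 < ε → ∃ K : ℝ, ∀ X ∈ 𝒞, ∀ Y, D.deq X Y → D.dim X = d →
    |((comb D c X - comb D c Y : ℤ) : ℝ)| ≤ ε * betti D X + K

variable {V : Type} [CommMonoid V] {D : HodgeData V} {curve : ℕ → V} {plane : V}

lemma comb_eq (c : (ℤ × ℤ) →₀ ℤ) (X : V) : comb D c X = val c (D.hodge X) := rfl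

lemma line_has (h : IsGeo D curve plane) : Has D (curve 0) 1 L := by
  have h1 := h.curve 0
  rwa [Nat.cast_zero, zero_mul, add_zero] at h1

lemma ell_has (h : IsGeo D curve plane) : Has D (curve 1) 1 Ell := by
  have h1 := h.curve 1
  rwa [Nat.cast_one, one_mul, ← ell_eq] at h1

lemma sy_hodge (h : IsHodge D) (Z : V) : Sy (D.hodge Z) (D.dim Z) where
  symm p q := h.symm Z p q
  serre p q := h.serre Z p q

lemma sy_diff (h : IsHodge D) {X Y : V} (hd : D.dim X = D.dim Y) :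
    Sy (D.hodge X - D.hodge Y) (D.dim X) where
  symm := diff_symm h X Y
  serre := diff_serre h hd

lemma supp_diff (h : IsHodge D) {X Y : V} (hd : D.dim X = D.dim Y) (p q : ℤ)
    (hpq : (D.hodge X - D.hodge Y).coeff (p, q) ≠ 0) :
    0 ≤ p ∧ p ≤ D.dim X ∧ 0 ≤ q ∧ q ≤ D.dim X := by
  by_contra hcon
  apply hpq
  rw [coeff_sub']
  have h1 := h_zero h X p q (by omega)
  have h2 := h_zero h Y p q (by rw [← hd]; omega)
  unfold HodgeData.h at h1 h2
  rw [h1, h2, sub_zero]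

lemma nontriv_cs (h : IsHodge D) {ℓ d : ℕ} (hM2 : ∀ z : ℤ, (ℓ : ℤ) ∣ 2 * z → (ℓ : ℤ) ∣ z)
    {c : (ℤ × ℤ) →₀ ℤ} (nt : Nontriv D ℓ d c) : ∃ w, ¬ (ℓ : ℤ) ∣ Cs c (d : ℤ) w := by
  by_contra hcon
  push Not at hcon
  obtain ⟨Z, hZ, hn⟩ := nt
  apply hn
  rw [comb_eq]
  apply hM2
  apply hM2
  have h1 := sy_hodge h Z
  rw [hZ] at h1
  rw [← val_cs c h1]
  exact Finset.dvd_sum fun x _ => Dvd.dvd.mul_right (hcon x) _

lemma box_le {n d : ℤ} {c : (ℤ × ℤ) →₀ ℤ} (box : InBox n d c) {n' : ℤ} (h : n' ≤ n) :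
    InBox n' d c := by
  intro x hx
  have h1 := box x hx
  omega

lemma box_dim {n d : ℤ} {c : (ℤ × ℤ) →₀ ℤ} (box : InBox n d c) (hc : ∃ w, Cs c d w ≠ 0) :
    n + n ≤ d := by
  obtain ⟨⟨w1, w2⟩, hw⟩ := hc
  have h1 := cs_box box hw
  omega

lemma exact_all (hG : IsGeo D curve plane) {𝒞 : Set V} (h𝒞 : ∀ g, StableMul 𝒞 (curve g))
    (hp𝒞 : StableMul 𝒞 plane) {ℓ : ℕ} (hℓ : ℓ = 0 ∨ ℓ.Prime ∧ ℓ ≠ 2) {n d : ℕ}
    {c : (ℤ × ℤ) →₀ ℤ} (box : InBox n d c) (nt : Nontriv D ℓ d c) (hinv : Invar D ℓ 𝒞 d c) :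
    ∀ X ∈ 𝒞, ∀ Y, D.deq X Y → D.dim X ≤ n → ∀ p q : ℤ, D.h X p q ≡ D.h Y p q [ZMOD ℓ] := by
  intro X hX Y hXY hn p q
  have h := hG.hodge
  have hd := h.deq_dim X Y hXY
  have hM2 : ∀ z : ℤ, (ℓ : ℤ) ∣ 2 * z → (ℓ : ℤ) ∣ z := two_dvd (by
    rcases hℓ with h1 | h1
    · exact Or.inl h1
    · exact Or.inr (h1.1.odd_of_ne_two h1.2))
  have hMp : ∀ x y : ℤ, (ℓ : ℤ) ∣ x * y → (ℓ : ℤ) ∣ x ∨ (ℓ : ℤ) ∣ y := by
    intro x y hxy
    rcases hℓ with rfl | h1
    · simpa using hxy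
    · exact (Nat.prime_iff_prime_int.mp h1.1).dvd_or_dvd hxy
  have hcs := nontriv_cs h hM2 nt
  have hle := box_dim box (by
    obtain ⟨w, hw⟩ := hcs
    exact ⟨w, fun h0 => hw (by rw [h0]; exact dvd_zero _)⟩)
  obtain ⟨T, hT⟩ : ∃ T : ℕ, D.dim X + T = d := ⟨d - D.dim X, by omega⟩
  have hT' : ((D.dim X : ℤ) + T) = d := by exact_mod_cast hT
  have key := core hM2 hMp (D.hodge X - D.hodge Y) (D.dim X) T (sy_diff h hd) (supp_diff h hd) c
    (by rw [hT']; exact box_le box (by exact_mod_cast hn)) (by rw [hT']; exact hcs) (by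
      intro i j k hijk
      have h2 := hinv (X * curve 0 ^ i * curve 1 ^ j * plane ^ k)
        (pow_mem hp𝒞 k (pow_mem (h𝒞 1) j (pow_mem (h𝒞 0) i hX)))
        (Y * curve 0 ^ i * curve 1 ^ j * plane ^ k)
        (h.deq_mul _ _ _ (h.deq_mul _ _ _ (h.deq_mul _ _ _ hXY)))
        (by rw [h.dim_mul, h.dim_mul, h.dim_mul, dim_pow h, dim_pow h, dim_pow h, (line_has hG).1,
              (ell_has hG).1, hG.plane.1]; omega)
      rw [comb_eq, comb_eq, hodge_mul_pow h, hodge_mul_pow h, hodge_mul_pow h, hodge_mul_pow h,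
        hodge_mul_pow h, hodge_mul_pow h, (line_has hG).2, (ell_has hG).2, hG.plane.2] at h2
      have h3 := h2.symm.dvd
      rw [← map_sub] at h3
      have h4 : (D.hodge X - D.hodge Y) * (L ^ i * Ell ^ j * Pl ^ k) =
          D.hodge X * L ^ i * Ell ^ j * Pl ^ k - D.hodge Y * L ^ i * Ell ^ j * Pl ^ k := by ring
      rw [h4]
      exact h3) p q
  rw [coeff_sub'] at key
  exact (Int.modEq_of_dvd key).symm

/-- A linear function which grows slower than its bound. -/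
lemma zero_of_lin (A B α β : ℤ) (h : ∀ ε : ℝ, 0 < ε → ∃ K : ℝ, ∀ g : ℕ,
    |((A + g * B : ℤ) : ℝ)| ≤ ε * ((α + g * β : ℤ) : ℝ) + K) : B = 0 := by
  by_contra hB
  have hB1 : (1 : ℝ) ≤ |(B : ℝ)| := by
    have h1 : (1 : ℤ) ≤ |B| := Int.one_le_abs hB
    exact_mod_cast h1
  have hβ : (0 : ℝ) ≤ |(β : ℝ)| := abs_nonneg _
  set ε : ℝ := 1 / (2 * (|(β : ℝ)| + 1)) with hε
  have hε0 : 0 < ε := by positivity
  have hε1 : ε ≤ 1 := by
    rw [hε, div_le_one (by positivity)]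
    linarith
  have hεβ : ε * |(β : ℝ)| ≤ 1 / 2 := by
    rw [hε, div_mul_eq_mul_div, div_le_div_iff₀ (by positivity) (by norm_num)]
    linarith
  obtain ⟨K, hK⟩ := h ε hε0
  obtain ⟨g, hg⟩ := exists_nat_gt (2 * (|(A : ℝ)| + |(α : ℝ)| + |K|))
  have h1 := hK g
  push_cast at h1
  have h2 : (g : ℝ) * |(B : ℝ)| ≤ |(A : ℝ) + g * B| + |(A : ℝ)| := by
    have h3 : (g : ℝ) * |(B : ℝ)| = |(A : ℝ) + g * B - A| := by
      rw [add_sub_cancel_left, abs_mul, Nat.abs_cast]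
    rw [h3]
    exact abs_sub _ _
  have h4 : (g : ℝ) ≤ g * |(B : ℝ)| := le_mul_of_one_le_right (Nat.cast_nonneg g) hB1
  have h5 : ε * ((α : ℝ) + g * β) ≤ |(α : ℝ)| + g * (1 / 2) := by
    have h6 : ε * (α : ℝ) ≤ |(α : ℝ)| := by
      calc ε * (α : ℝ) ≤ ε * |(α : ℝ)| := mul_le_mul_of_nonneg_left (le_abs_self _) hε0.le
        _ ≤ 1 * |(α : ℝ)| := mul_le_mul_of_nonneg_right hε1 (abs_nonneg _)
        _ = |(α : ℝ)| := one_mul _
    have h7 : ε * ((g : ℝ) * β) ≤ g * (1 / 2) := by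
      calc ε * ((g : ℝ) * β) = g * (ε * β) := by ring
        _ ≤ g * (ε * |(β : ℝ)|) := by
          apply mul_le_mul_of_nonneg_left _ (Nat.cast_nonneg g)
          exact mul_le_mul_of_nonneg_left (le_abs_self _) hε0.le
        _ ≤ g * (1 / 2) := mul_le_mul_of_nonneg_left hεβ (Nat.cast_nonneg g)
    rw [mul_add]
    exact add_le_add h6 h7
  have h8 : K ≤ |K| := le_abs_self K
  have h9 : (g : ℝ) ≤ |(A : ℝ)| + |(α : ℝ)| + g * (1 / 2) + |K| := by linarith
  linarith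

/-- The sum of the coefficients. -/
noncomputable def csum : Lau →+ ℤ where
  toFun P := P.coeff.sum fun _ z => z
  map_zero' := by simp
  map_add' P Q := by
    rw [coeff_add]
    exact Finsupp.sum_add_index' (fun _ => rfl) (fun _ _ _ => rfl)

lemma betti_eq (X : V) : betti D X = csum (D.hodge X) := rfl

lemma coeff_S (P : Lau) (p q : ℤ) : (P * S).coeff (p, q) = P.coeff (p - 1, q) + P.coeff (p, q - 1) := by
  unfold S
  rw [mul_add, coeff_add', coeff_mon, coeff_mon, sub_zero, sub_zero]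

lemma mul_S_zero (P : Lau) (supp : ∀ p q, P.coeff (p, q) ≠ 0 → 0 ≤ q)
    (h : ∀ p q, (P * S).coeff (p, q) = 0) : ∀ p q, P.coeff (p, q) = 0 := by
  have key : ∀ (k : ℕ) (p q : ℤ), q < k → P.coeff (p, q) = 0 := by
    intro k
    induction k with
    | zero =>
      intro p q hq
      by_contra hc
      have := supp p q hc
      push_cast at hq
      omega
    | succ k ih =>
      intro p q hq
      have h1 := h (p + 1) q
      rw [coeff_S, add_sub_cancel_right, ih (p + 1) (q - 1) (by push_cast at hq; omega),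
        add_zero] at h1
      exact h1
  intro p q
  exact key (q.toNat + 1) p q (by push_cast; omega)

lemma approx_all (hG : IsGeo D curve plane) {𝒞 : Set V} (h𝒞 : ∀ g, StableMul 𝒞 (curve g))
    (hp𝒞 : StableMul 𝒞 plane) {n d : ℕ} {c : (ℤ × ℤ) →₀ ℤ} (box : InBox (n + 1) d c)
    (nt : Nontriv D 0 d c) (ha : Approx D 𝒞 d c) :
    ∀ X ∈ 𝒞, ∀ Y, D.deq X Y → D.dim X ≤ n → ∀ p q : ℤ, D.h X p q = D.h Y p q := by
  intro X hX Y hXY hn p q
  have h := hG.hodge
  have hd := h.deq_dim X Y hXY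
  have hM2 : ∀ z : ℤ, ((0 : ℕ) : ℤ) ∣ 2 * z → ((0 : ℕ) : ℤ) ∣ z := two_dvd (Or.inl rfl)
  have hMp : ∀ x y : ℤ, ((0 : ℕ) : ℤ) ∣ x * y → ((0 : ℕ) : ℤ) ∣ x ∨ ((0 : ℕ) : ℤ) ∣ y := by
    intro x y hxy
    simpa using hxy
  have hcs := nontriv_cs h hM2 nt
  have hle := box_dim box (by
    obtain ⟨w, hw⟩ := hcs
    exact ⟨w, fun h0 => hw (by rw [h0]; exact dvd_zero _)⟩)
  obtain ⟨T, hT⟩ : ∃ T : ℕ, D.dim X + 1 + T = d := ⟨d - (D.dim X + 1), by omega⟩
  have hT' : ((D.dim X : ℤ) + 1 + T) = d := by exact_mod_cast hT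
  set P := D.hodge X - D.hodge Y with hP
  have sy := sy_diff h hd
  have sp := supp_diff h hd
  rw [← hP] at sy
  have sy' : Sy (P * S) ((D.dim X : ℤ) + 1) := by
    constructor
    · intro a b
      rw [coeff_S, coeff_S, sy.symm (a - 1), sy.symm a]
      ring
    · intro a b
      rw [coeff_S, coeff_S, sy.serre (a - 1), sy.serre a, add_comm]
      congr 3 <;> ring
  have key := core (M := ((0 : ℕ) : ℤ)) hM2 hMp (P * S) ((D.dim X : ℤ) + 1) T sy' (by
      intro a b hab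
      rw [coeff_S] at hab
      by_cases h1 : P.coeff (a - 1, b) = 0
      · have h2 : P.coeff (a, b - 1) ≠ 0 := by
          intro h3
          rw [h1, h3] at hab
          exact hab rfl
        have h3 := sp _ _ h2
        omega
      · have h3 := sp _ _ h1
        omega) c
    (by rw [hT']; exact box_le box (by omega)) (by rw [hT']; exact hcs) (by
      intro i j k hijk
      set H := L ^ i * Ell ^ j * Pl ^ k with hH
      have h0 : val c (P * S * H) = 0 := by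
        refine zero_of_lin (val c (P * H * L)) _ (csum (D.hodge X * H * L))
          (csum (D.hodge X * H * S)) fun ε hε => ?_
        obtain ⟨K, hK⟩ := ha ε hε
        refine ⟨K, fun g => ?_⟩
        have h2 := hK (X * curve 0 ^ i * curve 1 ^ j * plane ^ k * curve g)
          (h𝒞 g _ (pow_mem hp𝒞 k (pow_mem (h𝒞 1) j (pow_mem (h𝒞 0) i hX))))
          (Y * curve 0 ^ i * curve 1 ^ j * plane ^ k * curve g)
          (h.deq_mul _ _ _ (h.deq_mul _ _ _ (h.deq_mul _ _ _ (h.deq_mul _ _ _ hXY))))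
          (by rw [h.dim_mul, h.dim_mul, h.dim_mul, h.dim_mul, dim_pow h, dim_pow h, dim_pow h,
                (line_has hG).1, (ell_has hG).1, hG.plane.1, (hG.curve g).1]; omega)
        rw [comb_eq, comb_eq, betti_eq, h.mul, h.mul _ (curve g), hodge_mul_pow h,
          hodge_mul_pow h, hodge_mul_pow h, hodge_mul_pow h, hodge_mul_pow h, hodge_mul_pow h,
          (line_has hG).2, (ell_has hG).2, hG.plane.2, (hG.curve g).2, ← map_sub] at h2
        have h3 : D.hodge X * L ^ i * Ell ^ j * Pl ^ k * (L + (g : Lau) * S) -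
            D.hodge Y * L ^ i * Ell ^ j * Pl ^ k * (L + (g : Lau) * S) =
            P * H * L + g • (P * S * H) := by
          rw [nsmul_eq_mul, hP, hH]; ring
        have h4 : D.hodge X * L ^ i * Ell ^ j * Pl ^ k * (L + (g : Lau) * S) =
            D.hodge X * H * L + g • (D.hodge X * H * S) := by
          rw [nsmul_eq_mul, hH]; ring
        rw [h3, h4, map_add, map_add, map_nsmul, map_nsmul, nsmul_eq_mul, nsmul_eq_mul] at h2
        exact h2
      rw [h0]
      exact dvd_zero _)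
  have h1 := mul_S_zero P (fun a b hab => (sp a b hab).2.2.1) (fun a b => by
    have h2 := key a b
    simpa using h2) p q
  rw [hP, coeff_sub', sub_eq_zero] at h1
  exact h1

lemma coeff_Ell (P : Lau) (p q : ℤ) : (P * Ell).coeff (p, q) =
    P.coeff (p, q) + P.coeff (p - 1, q) + P.coeff (p, q - 1) + P.coeff (p - 1, q - 1) := by
  unfold Ell
  rw [mul_add, mul_add, mul_add, coeff_add', coeff_add', coeff_add', coeff_mon, coeff_mon,
    coeff_mon, coeff_mon, sub_zero, sub_zero]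

lemma ell_pow (d : ℕ) : (∀ p q : ℤ, 0 ≤ (Ell ^ d).coeff (p, q)) ∧
    ∀ p q : ℤ, 0 ≤ p → p ≤ d → 0 ≤ q → q ≤ d → 0 < (Ell ^ d).coeff (p, q) := by
  induction d with
  | zero =>
    have h1 : ∀ p q : ℤ, (Ell ^ 0).coeff (p, q) = if (0, 0) = (p, q) then 1 else 0 := by
      intro p q
      rw [pow_zero, ← mon_zero]
      unfold mon
      exact Finsupp.single_apply
    refine ⟨fun p q => ?_, fun p q h2 h3 h4 h5 => ?_⟩
    · rw [h1]; split_ifs <;> norm_num
    · rw [h1, if_pos]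
      · norm_num
      · push_cast at h3 h5
        rw [Prod.mk.injEq]; omega
  | succ d ih =>
    obtain ⟨ih1, ih2⟩ := ih
    refine ⟨fun p q => ?_, fun p q h2 h3 h4 h5 => ?_⟩
    · rw [pow_succ, coeff_Ell]
      have a1 := ih1 p q
      have a2 := ih1 (p - 1) q
      have a3 := ih1 p (q - 1)
      have a4 := ih1 (p - 1) (q - 1)
      omega
    · rw [pow_succ, coeff_Ell]
      push_cast at h3 h5
      have a1 := ih1 p q
      have a2 := ih1 (p - 1) q
      have a3 := ih1 p (q - 1)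
      have a4 := ih1 (p - 1) (q - 1)
      by_cases hp : p ≤ d <;> by_cases hq : q ≤ d
      · have := ih2 p q h2 hp h4 hq; omega
      · have := ih2 p (q - 1) h2 hp (by omega) (by omega); omega
      · have := ih2 (p - 1) q (by omega) (by omega) h4 hq; omega
      · have := ih2 (p - 1) (q - 1) (by omega) (by omega) (by omega) (by omega); omega

lemma nontriv_single (hG : IsGeo D curve plane) {d : ℕ} (hd : 0 < d) {a b : ℤ} (h1 : 0 ≤ a)
    (h2 : a ≤ d) (h3 : 0 ≤ b) (h4 : b ≤ d) : Nontriv D 0 d (Finsupp.single (a, b) 1) := by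
  have h := hG.hodge
  obtain ⟨e, rfl⟩ : ∃ e, d = e + 1 := ⟨d - 1, by omega⟩
  refine ⟨curve 1 * curve 1 ^ e, ?_, ?_⟩
  · rw [h.dim_mul, dim_pow h, (ell_has hG).1]; ring
  · rw [comb_eq, hodge_mul_pow h, (ell_has hG).2, val_apply, Finsupp.sum_single_index (by simp)]
    intro h5
    rw [one_mul, Nat.cast_zero, zero_dvd_iff, ← pow_succ'] at h5
    have h6 := (ell_pow (e + 1)).2 a b h1 h2 h3 h4
    omega

lemma betti_nonneg (hG : IsGeo D curve plane) (X : V) : 0 ≤ betti D X :=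
  Finset.sum_nonneg fun x _ => hG.nonneg X x.1 x.2

end Pool.Agent.Helper13.IH
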