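import Pool.Agent.Helper13.IH.Poly2

/-!
# Polynomials in interior Hodge numbers: varieties
-/

set_option autoImplicit false

open AddMonoidAlgebra Pool.Agent.Q148.HN

namespace Pool.Agent.Helper13.IH

lemma ev_congr (f : MvPolynomial (ℤ × ℤ) ℤ) {P Q : Lau} {m : ℤ}
    (h : ∀ w, m ∣ P.coeff w - Q.coeff w) : m ∣ ev f P - ev f Q := by
  unfold ev
  induction f using MvPolynomial.induction_on with
  | C a => simp
  | add p q hp hq =>
    rw [map_add, map_add, add_sub_add_comm]
    exact dvd_add hp hq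
  | mul_X p j hp =>
    rw [map_mul, map_mul, MvPolynomial.eval_X, MvPolynomial.eval_X]
    have e1 : ∀ a b x y : ℤ, a * x - b * y = (a - b) * x + b * (x - y) := by intros; ring
    rw [e1]
    exact dvd_add (Dvd.dvd.mul_right hp _) (Dvd.dvd.mul_left (h j) _)

lemma coeff_mul_dvd (P : Lau) {Q : Lau} {m : ℤ} (h : ∀ w, m ∣ Q.coeff w) (w : ℤ × ℤ) :
    m ∣ (P * Q).coeff w := by
  rw [AddMonoidAlgebra.coeff_mul]
  refine Finset.dvd_sum fun x _ => Finset.dvd_sum fun y _ => ?_
  change m ∣ if x + y = w then P.coeff x * Q.coeff y else 0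
  split_ifs
  · exact Dvd.dvd.mul_left (h y) _
  · exact dvd_zero _

lemma ev_local {n d : ℤ} {f : MvPolynomial (ℤ × ℤ) ℤ}
    (hf : ∀ m ∈ f.support, ∀ w ∈ m.support, Om n d w) {P Q : Lau}
    (h : ∀ w, Om n d w → P.coeff w = Q.coeff w) : ev f P = ev f Q := by
  unfold ev
  rw [MvPolynomial.eval_eq, MvPolynomial.eval_eq]
  refine Finset.sum_congr rfl fun m hm => ?_
  congr 1
  refine Finset.prod_congr rfl fun w hw => ?_
  rw [h w (hf m hm w hw)]

lemma adm_corner {T : ℤ} (hT : 0 ≤ T) : Adm T (mon 0 0 + mon T T) := by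
  have e : ∀ p q, (mon 0 0 + mon T T).coeff (p, q) = (if ((0 : ℤ), (0 : ℤ)) = (p, q) then (1 : ℤ) else 0) +
      (if (T, T) = (p, q) then 1 else 0) := by
    intro p q
    rw [coeff_add', coeff_mon', coeff_mon']
  simp only [Prod.mk.injEq] at e
  refine ⟨⟨fun p q => ?_, fun p q => ?_⟩, fun p q h => ?_⟩
  · rw [e, e]
    split_ifs <;> first | rfl | omega
  · rw [e, e]
    split_ifs <;> first | rfl | omega
  · rw [e] at h
    split_ifs at h <;> first | omega | exact absurd rfl h

variable {V : Type} [CommMonoid V] {D : HodgeData V}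

/-- The theorem of Paulsen and Schreieder: for all `N` and `m ≥ 1`, every table of integers with Hodge
symmetry and Serre duality in dimension `N` and the entry `1` at `(0, 0)` is congruent modulo `m` to the
Hodge numbers of a variety of dimension `N`. -/
def PaulsenSchreieder (D : HodgeData V) : Prop :=
  ∀ (N m : ℕ) (A : Lau), 0 < m → Adm N A → A.coeff (0, 0) = 1 →
    ∃ Z, D.dim Z = N ∧ ∀ p q : ℤ, D.h Z p q ≡ A.coeff (p, q) [ZMOD m]

/-- The value of the polynomial `f` at the Hodge numbers of `X`: the variable with the index `(a, b)` is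
replaced by `h^{a,b}(X)`. -/
noncomputable def polyVal (D : HodgeData V) (f : MvPolynomial (ℤ × ℤ) ℤ) (X : V) : ℤ :=
  MvPolynomial.eval (fun w => D.h X w.1 w.2) f

lemma adm_hodge (h : IsHodge D) (X : V) : Adm (D.dim X) (D.hodge X) where
  sy := sy_hodge h X
  supp p q hpq := by
    by_contra hcon
    exact hpq (h_zero h X p q (by omega))

/-- From products with varieties to products with all symmetric tables. -/
lemma inv_of_ps (h : IsHodge D) (ps : PaulsenSchreieder D) {X Y : V} (hd : D.dim X = D.dim Y)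
    {T : ℕ} {f : MvPolynomial (ℤ × ℤ) ℤ}
    (hf : ∀ m ∈ f.support, ∀ w ∈ m.support, Om (D.dim X) (D.dim X + T) w)
    (hZ : ∀ Z, D.dim Z = T → polyVal D f (X * Z) = polyVal D f (Y * Z)) (A : Lau)
    (hA : Adm T A) : ev f (D.hodge X * A) = ev f (D.hodge Y * A) := by
  -- tables with the entry `1` at `(0, 0)`
  have h1 : ∀ A : Lau, Adm T A → A.coeff (0, 0) = 1 →
      ev f (D.hodge X * A) = ev f (D.hodge Y * A) := by
    intro A hA hA1
    have h2 : ∀ m : ℕ, 0 < m → (m : ℤ) ∣ ev f (D.hodge X * A) - ev f (D.hodge Y * A) := by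
      intro m hm
      obtain ⟨Z, hZ1, hZ2⟩ := ps T m A hm hA hA1
      have h3 : ∀ w, (m : ℤ) ∣ (A - D.hodge Z).coeff w := by
        rintro ⟨p, q⟩
        rw [coeff_sub']
        exact (hZ2 p q).dvd
      have h4 : ∀ N : Lau, (m : ℤ) ∣ ev f (N * A) - ev f (N * D.hodge Z) := by
        intro N
        refine ev_congr f fun w => ?_
        rw [← coeff_sub', ← mul_sub]
        exact coeff_mul_dvd N h3 w
      have h5 : ev f (D.hodge X * D.hodge Z) = ev f (D.hodge Y * D.hodge Z) := by
        have h6 := hZ Z hZ1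
        unfold polyVal HodgeData.h at h6
        rw [h.mul, h.mul] at h6
        exact h6
      have h7 := dvd_sub (h4 (D.hodge X)) (h4 (D.hodge Y))
      rw [h5, sub_sub_sub_cancel_right] at h7
      exact h7
    have h3 := h2 ((ev f (D.hodge X * A) - ev f (D.hodge Y * A)).natAbs + 1) (Nat.succ_pos _)
    have h4 := Int.eq_zero_of_dvd_of_natAbs_lt_natAbs h3 (by
      rw [Int.natAbs_natCast]; exact Nat.lt_succ_self _)
    exact sub_eq_zero.mp h4
  -- all tables
  rcases Nat.eq_zero_or_pos T with hT | hT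
  · -- there are no variables
    refine ev_local hf fun w hw => ?_
    subst hT
    unfold Om at hw
    push_cast at hw
    omega
  · have hE : Adm (T : ℤ) (mon 0 0 + mon T T) := adm_corner (by omega)
    have h2 := h1 _ (hA.add_zsmul hE (1 - A.coeff (0, 0))) (by
      rw [coeff_add', coeff_smul, Finsupp.smul_apply, coeff_add', coeff_mon', coeff_mon', if_pos rfl,
        if_neg (by rw [Prod.mk.injEq]; omega)]
      simp)
    have key : ∀ Z : V, D.dim Z = D.dim X →
        ev f (D.hodge Z * (A + (1 - A.coeff (0, 0)) • (mon 0 0 + mon T T))) =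
          ev f (D.hodge Z * A) := by
      intro Z hZd
      refine ev_local hf fun w hw => ?_
      obtain ⟨a, b⟩ := w
      have hs := adm_hodge h Z
      rw [hZd] at hs
      unfold Om at hw
      simp only at hw
      have e1 : (D.hodge Z * (mon 0 0 + mon T T)).coeff (a, b) = 0 := by
        rw [mul_add, coeff_add', coeff_mon, coeff_mon, hs.out (by omega), hs.out (by omega)]
        simp
      rw [mul_add, coeff_add', mul_smul_comm, coeff_smul, Finsupp.smul_apply, e1, smul_zero,
        add_zero]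
    rwa [key X rfl, key Y hd.symm] at h2

/-- **Two varieties of the same dimension and polynomials in the interior Hodge numbers.** -/
lemma poly_all (h : IsHodge D) (h00 : ∀ X, D.h X 0 0 = 1) (ps : PaulsenSchreieder D) {X Y : V}
    (hd : D.dim X = D.dim Y) {n d : ℕ} (hn : D.dim X ≤ n) {f : MvPolynomial (ℤ × ℤ) ℤ}
    (hf : ∀ w ∈ f.vars, Om n d w) (hconst : ∀ z : ℤ, f ≠ MvPolynomial.C z)
    (hZ : ∀ Z, D.dim X + D.dim Z = d → polyVal D f (X * Z) = polyVal D f (Y * Z)) :
    ∀ p q : ℤ, D.h X p q = D.h Y p q := by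
  classical
  have hvars : f.vars ≠ ∅ := by
    intro h1
    apply hconst (MvPolynomial.coeff 0 f)
    ext m
    rw [MvPolynomial.coeff_C]
    split_ifs with h2
    · rw [← h2]
    · by_contra h3
      obtain ⟨i, hi⟩ := Finsupp.ne_iff.mp (Ne.symm h2)
      have h4 : i ∈ f.vars := MvPolynomial.mem_vars i |>.mpr
        ⟨m, MvPolynomial.mem_support_iff.mpr h3, Finsupp.mem_support_iff.mpr hi⟩
      rw [h1] at h4
      exact absurd h4 (Finset.notMem_empty i)
  obtain ⟨w0, hw0⟩ := Finset.nonempty_iff_ne_empty.mpr hvars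
  have hO := hf w0 hw0
  unfold Om at hO
  obtain ⟨T, hT⟩ : ∃ T : ℕ, D.dim X + T = d := ⟨d - D.dim X, by omega⟩
  have hT' : ((D.dim X : ℤ) + T) = d := by exact_mod_cast hT
  have hf' : ∀ m ∈ f.support, ∀ w ∈ m.support, Om (D.dim X) (D.dim X + T) w := by
    intro m hm w hw
    have h1 := hf w (MvPolynomial.mem_vars w |>.mpr ⟨m, hm, hw⟩)
    rw [hT']
    unfold Om at h1 ⊢
    omega
  by_contra hcon
  push Not at hcon
  obtain ⟨p, q, hpq⟩ := hcon
  have hMX := adm_hodge h X
  have hMY := adm_hodge h Y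
  rw [← hd] at hMY
  refine hvars (poly_core hMX hMY (h00 X) (h00 Y) ⟨p, q, ?_⟩ (f.support.sup Finsupp.degree) f
    (fun m hm => Finset.le_sup (f := Finsupp.degree) hm) hf' fun A hA =>
      inv_of_ps h ps hd hf' (fun Z hZd => hZ Z (by omega)) A hA)
  rw [coeff_sub', sub_ne_zero]
  exact hpq

end Pool.Agent.Helper13.IH
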