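import Pool.Agent.Helper13.IH.Geo

/-!
# Polynomials in interior Hodge numbers: the algebra
-/

set_option autoImplicit false

open AddMonoidAlgebra Pool.Agent.Q148.HN

namespace Pool.Agent.Helper13.IH

/-- Linear core, in characteristic zero, for the symmetrised monomials. -/
lemma core_sym (P : Lau) (n : ℤ) (T : ℕ) (hP : Sy P n)
    (supp : ∀ p q, P.coeff (p, q) ≠ 0 → 0 ≤ p ∧ p ≤ n ∧ 0 ≤ q ∧ q ≤ n) (c : (ℤ × ℤ) →₀ ℤ)
    (box : InBox n (n + T) c) (hc : ∃ w, Cs c (n + T) w ≠ 0)
    (h : ∀ r s : ℤ, 0 ≤ r → r ≤ T → 0 ≤ s → s ≤ T → val c (P * Sym T r s) = 0) :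
    ∀ p q, P.coeff (p, q) = 0 := by
  classical
  by_contra hcon
  push Not at hcon
  obtain ⟨p0, q0, h0⟩ := hcon
  set C := Cs c (n + T) with hC
  obtain ⟨w0, hw0⟩ := hc
  obtain ⟨w, hw, hwmax⟩ := C.support.exists_max_image
    (fun x => toLex x) ⟨w0, Finsupp.mem_support_iff.mpr hw0⟩
  obtain ⟨z, hz, hzmin⟩ := P.coeff.support.exists_min_image
    (fun x => toLex x) ⟨(p0, q0), Finsupp.mem_support_iff.mpr h0⟩
  rw [Finsupp.mem_support_iff] at hw hz
  obtain ⟨w1, w2⟩ := w
  obtain ⟨z1, z2⟩ := z
  have bw := cs_box box hw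
  have bz := supp z1 z2 hz
  have h1 := h (w1 - z1) (w2 - z2) (by omega) (by omega) (by omega) (by omega)
  rw [val_sym c hP, ← hC, Finsupp.sum, Finset.sum_eq_single (w1, w2)] at h1
  · have a1 : w1 - (w1 - z1) = z1 := by ring
    have a2 : w2 - (w2 - z2) = z2 := by ring
    simp only [a1, a2] at h1
    rcases mul_eq_zero.mp h1 with h7 | h7
    · exact hw h7
    · exact hz h7
  · intro x hx hxw
    apply mul_eq_zero_of_right
    by_contra hx2
    have h4 := hwmax x hx
    have h5 := hzmin (x.1 - (w1 - z1), x.2 - (w2 - z2)) (Finsupp.mem_support_iff.mpr hx2)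
    obtain ⟨x1, x2⟩ := x
    rw [Prod.Lex.toLex_le_toLex] at h4 h5
    simp only at h4 h5
    apply hxw
    rw [Prod.mk.injEq]
    omega
  · intro hn
    exact absurd (Finsupp.mem_support_iff.mpr hw) hn

section chain

variable {σ : Type} [DecidableEq σ]

/-- The restriction of a polynomial to a line. -/
noncomputable def line (x v : σ → ℤ) (f : MvPolynomial σ ℤ) : Polynomial ℤ :=
  MvPolynomial.aeval (fun i => Polynomial.C (x i) + Polynomial.C (v i) * Polynomial.X) f

lemma line_eval (x v : σ → ℤ) (f : MvPolynomial σ ℤ) (t : ℤ) :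
    (line x v f).eval t = MvPolynomial.eval (fun i => x i + v i * t) f := by
  unfold line
  induction f using MvPolynomial.induction_on with
  | C a => simp
  | add p q hp hq => rw [map_add, Polynomial.eval_add, hp, hq, map_add]
  | mul_X p j hp =>
    rw [map_mul, Polynomial.eval_mul, hp, map_mul, MvPolynomial.aeval_X, MvPolynomial.eval_X]
    simp

lemma line_deriv (x v : σ → ℤ) (s : Finset σ) (hv : ∀ i ∉ s, v i = 0) (f : MvPolynomial σ ℤ) :
    (Polynomial.derivative (line x v f)).eval 0 =
      ∑ i ∈ s, MvPolynomial.eval x (MvPolynomial.pderiv i f) * v i := by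
  induction f using MvPolynomial.induction_on with
  | C a => simp [line]
  | add p q hp hq =>
    have h1 : line x v (p + q) = line x v p + line x v q := by unfold line; rw [map_add]
    rw [h1, Polynomial.derivative_add, Polynomial.eval_add, hp, hq, ← Finset.sum_add_distrib]
    refine Finset.sum_congr rfl fun i _ => ?_
    rw [map_add, map_add, add_mul]
  | mul_X p j hp =>
    have h1 : line x v (p * MvPolynomial.X j) =
        line x v p * (Polynomial.C (x j) + Polynomial.C (v j) * Polynomial.X) := by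
      unfold line; rw [map_mul, MvPolynomial.aeval_X]
    have h2 : (line x v p).eval 0 = MvPolynomial.eval x p := by
      rw [line_eval]
      simp
    rw [h1, Polynomial.derivative_mul, Polynomial.eval_add, Polynomial.eval_mul,
      Polynomial.eval_mul, hp, h2]
    have h3 : (Polynomial.C (x j) + Polynomial.C (v j) * Polynomial.X : Polynomial ℤ).eval 0 = x j := by
      simp
    have h4 : (Polynomial.derivative
        (Polynomial.C (x j) + Polynomial.C (v j) * Polynomial.X : Polynomial ℤ)).eval 0 = v j := by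
      simp
    rw [h3, h4, Finset.sum_mul]
    have h5 : ∑ i ∈ s, MvPolynomial.eval x (MvPolynomial.pderiv i (p * MvPolynomial.X j)) * v i =
        ∑ i ∈ s, (MvPolynomial.eval x (MvPolynomial.pderiv i p) * v i * x j +
          MvPolynomial.eval x p * (if i = j then v j else 0)) := by
      refine Finset.sum_congr rfl fun i _ => ?_
      rw [MvPolynomial.pderiv_mul, map_add, map_mul, map_mul, MvPolynomial.eval_X]
      by_cases hij : i = j
      · subst hij
        rw [MvPolynomial.pderiv_X_self, if_pos rfl, map_one]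
        ring
      · rw [MvPolynomial.pderiv_X_of_ne (Ne.symm hij), if_neg hij, map_zero]
        ring
    rw [h5, Finset.sum_add_distrib, ← Finset.mul_sum, Finset.sum_ite_eq']
    congr 1
    by_cases hj : j ∈ s
    · rw [if_pos hj]
    · rw [if_neg hj, hv j hj]

end chain

/-- Laurent polynomials with the symmetries and the support of Hodge polynomials of degree `T`. -/
structure Adm (T : ℤ) (A : Lau) : Prop where
  sy : Sy A T
  supp : ∀ p q, A.coeff (p, q) ≠ 0 → 0 ≤ p ∧ p ≤ T ∧ 0 ≤ q ∧ q ≤ T

lemma Adm.zero (T : ℤ) : Adm T 0 where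
  sy := ⟨fun _ _ => rfl, fun _ _ => rfl⟩
  supp p q h := absurd rfl h

lemma Adm.add_zsmul {T : ℤ} {A B : Lau} (hA : Adm T A) (hB : Adm T B) (t : ℤ) :
    Adm T (A + t • B) := by
  have e : ∀ g, (A + t • B).coeff g = A.coeff g + t * B.coeff g := by
    intro g
    rw [coeff_add', coeff_smul]
    simp
  refine ⟨⟨fun p q => ?_, fun p q => ?_⟩, fun p q h => ?_⟩
  · rw [e, e, hA.sy.symm, hB.sy.symm]
  · rw [e, e, hA.sy.serre, hB.sy.serre]
  · rw [e] at h
    by_cases h1 : A.coeff (p, q) = 0
    · have h2 : B.coeff (p, q) ≠ 0 := by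
        intro h3
        rw [h1, h3, mul_zero, add_zero] at h
        exact h rfl
      exact hB.supp p q h2
    · exact hA.supp p q h1

lemma coeff_mon' (a b p q : ℤ) : (mon a b).coeff (p, q) = if (a, b) = (p, q) then 1 else 0 := by
  unfold mon
  exact Finsupp.single_apply

lemma adm_sym {T r s : ℤ} (h1 : 0 ≤ r) (h2 : r ≤ T) (h3 : 0 ≤ s) (h4 : s ≤ T) :
    Adm T (Sym T r s) := by
  have e : ∀ p q, (Sym T r s).coeff (p, q) = (if (r, s) = (p, q) then 1 else 0) +
      (if (s, r) = (p, q) then 1 else 0) + (if (T - r, T - s) = (p, q) then 1 else 0) +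
      (if (T - s, T - r) = (p, q) then 1 else 0) := by
    intro p q
    unfold Sym
    rw [coeff_add', coeff_add', coeff_add', coeff_mon', coeff_mon', coeff_mon', coeff_mon']
  simp only [Prod.mk.injEq] at e
  refine ⟨⟨fun p q => ?_, fun p q => ?_⟩, fun p q h => ?_⟩
  · rw [e, e]
    split_ifs <;> first | rfl | omega
  · rw [e, e]
    split_ifs <;> first | rfl | omega
  · rw [e] at h
    split_ifs at h <;> first | omega | exact absurd rfl h

end Pool.Agent.Helper13.IH
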