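import Pool.Agent.Helper13.IH.Poly

/-!
# Polynomials in interior Hodge numbers: the induction
-/

set_option autoImplicit false

open AddMonoidAlgebra Pool.Agent.Q148.HN

namespace Pool.Agent.Helper13.IH

/-- The place `w = (a, b)` is in the fundamental domain `b ≤ a`, `d ≤ a + b` of the Hodge symmetries in
dimension `d`, and `n < b`, `a < d - n`. -/
def Om (n d : ℤ) (w : ℤ × ℤ) : Prop := w.2 ≤ w.1 ∧ d ≤ w.1 + w.2 ∧ n < w.2 ∧ w.1 + n < d

/-- The value of the polynomial `f` at the coefficients of `P`. -/
noncomputable def ev (f : MvPolynomial (ℤ × ℤ) ℤ) (P : Lau) : ℤ :=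
  MvPolynomial.eval (fun w => P.coeff w) f

lemma line_ev (f : MvPolynomial (ℤ × ℤ) ℤ) (M A B : Lau) (t : ℤ) :
    (line (fun i => (M * A).coeff i) (fun i => (M * B).coeff i) f).eval t =
      ev f (M * (A + t • B)) := by
  rw [line_eval]
  unfold ev
  congr 1
  congr 1
  funext i
  rw [mul_add, coeff_add', mul_smul_comm, coeff_smul]
  simp [mul_comm]

/-- The derivative of the identity. -/
lemma deriv_id {M M' : Lau} {T : ℤ} {f : MvPolynomial (ℤ × ℤ) ℤ}
    (inv : ∀ A, Adm T A → ev f (M * A) = ev f (M' * A)) {A B : Lau} (hA : Adm T A)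
    (hB : Adm T B) : ∃ s : Finset (ℤ × ℤ),
      (∀ i, i ∉ s → (M * B).coeff i = 0 ∧ (M' * B).coeff i = 0) ∧
      ∑ i ∈ s, ev (MvPolynomial.pderiv i f) (M * A) * (M * B).coeff i =
        ∑ i ∈ s, ev (MvPolynomial.pderiv i f) (M' * A) * (M' * B).coeff i := by
  classical
  refine ⟨(M * B).coeff.support ∪ (M' * B).coeff.support, fun i hi => ?_, ?_⟩
  · rw [Finset.mem_union, not_or] at hi
    exact ⟨Finsupp.notMem_support_iff.mp hi.1, Finsupp.notMem_support_iff.mp hi.2⟩
  · have h1 : line (fun i => (M * A).coeff i) (fun i => (M * B).coeff i) f =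
        line (fun i => (M' * A).coeff i) (fun i => (M' * B).coeff i) f := by
      refine Polynomial.funext fun t => ?_
      rw [line_ev, line_ev]
      exact inv _ (hA.add_zsmul hB t)
    have h2 := line_deriv (fun i => (M * A).coeff i) (fun i => (M * B).coeff i)
      ((M * B).coeff.support ∪ (M' * B).coeff.support) (fun i hi => by
        rw [Finset.mem_union, not_or] at hi
        exact Finsupp.notMem_support_iff.mp hi.1) f
    have h3 := line_deriv (fun i => (M' * A).coeff i) (fun i => (M' * B).coeff i)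
      ((M * B).coeff.support ∪ (M' * B).coeff.support) (fun i hi => by
        rw [Finset.mem_union, not_or] at hi
        exact Finsupp.notMem_support_iff.mp hi.2) f
    rw [h1] at h2
    exact h2.symm.trans h3

lemma ev_zero (f : MvPolynomial (ℤ × ℤ) ℤ) : ev f 0 = MvPolynomial.coeff 0 f := by
  unfold ev
  have h1 : (fun w => (0 : Lau).coeff w) = (0 : ℤ × ℤ → ℤ) := by
    funext w; rfl
  rw [h1, ← MvPolynomial.constantCoeff_eq, ← MvPolynomial.eval_zero]

/-- The linear part vanishes. -/
lemma linear_zero {M M' : Lau} {n : ℤ} {T : ℕ} (hM : Adm n M) (hM' : Adm n M')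
    (hne : ∃ p q, (M - M').coeff (p, q) ≠ 0) {f : MvPolynomial (ℤ × ℤ) ℤ}
    (hf : ∀ m ∈ f.support, ∀ w ∈ m.support, Om n (n + T) w)
    (inv : ∀ A, Adm T A → ev f (M * A) = ev f (M' * A)) (w : ℤ × ℤ) :
    MvPolynomial.coeff (Finsupp.single w 1) f = 0 := by
  classical
  have hvar : ∀ w, MvPolynomial.coeff (Finsupp.single w 1) f ≠ 0 → w ∈ f.vars := by
    intro w hw
    rw [MvPolynomial.mem_vars]
    refine ⟨Finsupp.single w 1, MvPolynomial.mem_support_iff.mpr hw, ?_⟩
    rw [Finsupp.mem_support_iff, Finsupp.single_eq_same]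
    exact one_ne_zero
  set c : (ℤ × ℤ) →₀ ℤ := Finsupp.onFinset f.vars
    (fun w => MvPolynomial.coeff (Finsupp.single w 1) f) hvar with hc
  have hcw : ∀ w, c w = MvPolynomial.coeff (Finsupp.single w 1) f := fun w => rfl
  have hOm : ∀ w, c w ≠ 0 → Om n (n + T) w := by
    intro w hw
    rw [hcw] at hw
    refine hf _ (MvPolynomial.mem_support_iff.mpr hw) w ?_
    rw [Finsupp.mem_support_iff, Finsupp.single_eq_same]
    exact one_ne_zero
  -- the functional vanishes
  have hval : ∀ B, Adm T B → val c ((M - M') * B) = 0 := by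
    intro B hB
    obtain ⟨s, hs1, hs2⟩ := deriv_id inv (Adm.zero T) hB
    rw [mul_zero, mul_zero] at hs2
    have e1 : ∀ i, ev (MvPolynomial.pderiv i f) 0 = c i := by
      intro i
      rw [ev_zero, MvPolynomial.coeff_pderiv, zero_add, hcw]
      simp
    simp only [e1] at hs2
    have e2 : val c ((M - M') * B) =
        ∑ i ∈ s, (c i * (M * B).coeff i - c i * (M' * B).coeff i) := by
      rw [val_apply, Finsupp.sum]
      have e3 : ∀ i, c i * ((M - M') * B).coeff i =
          c i * (M * B).coeff i - c i * (M' * B).coeff i := by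
        intro i
        rw [sub_mul, coeff_sub', mul_sub]
      rw [Finset.sum_congr rfl fun i _ => e3 i]
      rw [Finset.sum_subset (Finset.subset_union_left (s₂ := s)) (by
        intro i _ hi
        rw [Finsupp.notMem_support_iff.mp hi]; ring)]
      rw [← Finset.sum_subset (Finset.subset_union_right (s₁ := c.support)) (by
        intro i _ hi
        rw [(hs1 i hi).1, (hs1 i hi).2]; ring)]
    rw [e2, Finset.sum_sub_distrib, hs2, sub_self]
  by_contra hcon
  rw [← hcw] at hcon
  have hO := hOm w hcon
  obtain ⟨x, y⟩ := w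
  have hCs : Cs c (n + T) (x, y) ≠ 0 := by
    rw [cs_apply]
    have key : ∀ a b : ℤ, ¬ Om n (n + T) (a, b) → c (a, b) = 0 := by
      intro a b hab
      by_contra h
      exact hab (hOm _ h)
    unfold Om at key hO
    simp only at key hO
    have t2 : c (y, x) = c (x, y) ∨ c (y, x) = 0 := by
      by_cases hxy : x = y
      · subst hxy; exact Or.inl rfl
      · exact Or.inr (key y x (by omega))
    have t3 : c ((n + T) - x, (n + T) - y) = c (x, y) ∨ c ((n + T) - x, (n + T) - y) = 0 := by
      by_cases hxy : x = y ∧ x + y = n + T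
      · left
        congr 2 <;> omega
      · exact Or.inr (key _ _ (by omega))
    have t4 : c ((n + T) - y, (n + T) - x) = c (x, y) ∨ c ((n + T) - y, (n + T) - x) = 0 := by
      by_cases hxy : x + y = n + T
      · left
        congr 2 <;> omega
      · exact Or.inr (key _ _ (by omega))
    rcases t2 with t2 | t2 <;> rcases t3 with t3 | t3 <;> rcases t4 with t4 | t4 <;>
      rw [t2, t3, t4] <;> intro h0 <;> apply hcon <;> omega
  have hsy : Sy (M - M') n := by
    constructor
    · intro p q
      rw [coeff_sub', coeff_sub', hM.sy.symm, hM'.sy.symm]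
    · intro p q
      rw [coeff_sub', coeff_sub', hM.sy.serre, hM'.sy.serre]
  have hsupp : ∀ p q, (M - M').coeff (p, q) ≠ 0 → 0 ≤ p ∧ p ≤ n ∧ 0 ≤ q ∧ q ≤ n := by
    intro p q hpq
    rw [coeff_sub'] at hpq
    by_cases h1 : M.coeff (p, q) = 0
    · have h2 : M'.coeff (p, q) ≠ 0 := by
        intro h3; rw [h1, h3] at hpq; exact hpq rfl
      exact hM'.supp p q h2
    · exact hM.supp p q h1
  obtain ⟨p, q, hpq⟩ := hne
  apply hpq
  refine core_sym (M - M') n T hsy hsupp c ?_ ⟨_, hCs⟩ (fun r s h1 h2 h3 h4 =>
    hval _ (adm_sym h1 h2 h3 h4)) p q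
  intro w hw
  have h1 := hOm w (Finsupp.mem_support_iff.mp hw)
  unfold Om at h1
  omega

/-- The four terms of the product with a symmetrised monomial. -/
lemma coeff_mul_sym (M : Lau) (T w1 w2 a b : ℤ) : (M * Sym T w1 w2).coeff (a, b) =
    M.coeff (a - w1, b - w2) + M.coeff (a - w2, b - w1) + M.coeff (a - (T - w1), b - (T - w2)) +
      M.coeff (a - (T - w2), b - (T - w1)) := by
  unfold Sym
  rw [mul_add, mul_add, mul_add, coeff_add', coeff_add', coeff_add', coeff_mon, coeff_mon,
    coeff_mon, coeff_mon]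

lemma Adm.out {n : ℤ} {M : Lau} (h : Adm n M) {p q : ℤ}
    (hpq : ¬ (0 ≤ p ∧ p ≤ n ∧ 0 ≤ q ∧ q ≤ n)) : M.coeff (p, q) = 0 := by
  by_contra hc
  exact hpq (h.supp p q hc)

/-- Triangularity. -/
lemma lower_zero {n T : ℤ} {M : Lau} (h : Adm n M) {w1 w2 a b : ℤ} (hw : Om n (n + T) (w1, w2))
    (ha : Om n (n + T) (a, b)) (hlt : a < w1 ∨ a = w1 ∧ b < w2) :
    (M * Sym T w1 w2).coeff (a, b) = 0 := by
  unfold Om at hw ha
  simp only at hw ha
  rw [coeff_mul_sym, h.out (by omega), h.out (by omega), h.out (by omega), h.out (by omega)]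
  simp

/-- The leading coefficient. -/
lemma lead {n T : ℤ} {M : Lau} (h : Adm n M) (h0 : M.coeff (0, 0) = 1) {w1 w2 : ℤ}
    (hw : Om n (n + T) (w1, w2)) : (M * Sym T w1 w2).coeff (w1, w2) =
      1 + (if w1 = w2 then 1 else 0) + (if w1 = w2 ∧ w1 + w2 = n + T then 1 else 0) +
        (if w1 + w2 = n + T then 1 else 0) := by
  unfold Om at hw
  simp only at hw
  have hn : M.coeff (n, n) = 1 := by
    rw [h.sy.serre, sub_self, h0]
  rw [coeff_mul_sym, sub_self, sub_self, h0]
  congr 1
  · congr 1
    · congr 1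
      split_ifs with h1
      · subst h1; rw [sub_self, h0]
      · exact h.out (by omega)
    · split_ifs with h1
      · have e1 : w1 - (T - w1) = n := by omega
        have e2 : w2 - (T - w2) = n := by omega
        rw [e1, e2, hn]
      · exact h.out (by omega)
  · split_ifs with h1
    · have e1 : w1 - (T - w2) = n := by omega
      have e2 : w2 - (T - w1) = n := by omega
      rw [e1, e2, hn]
    · exact h.out (by omega)

/-- **The nonlinear core.** A polynomial in the interior coefficients which does not distinguish `M A` and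
`M' A` for all `A` is constant, if `M ≠ M'`. -/
lemma poly_core {M M' : Lau} {n : ℤ} {T : ℕ} (hM : Adm n M) (hM' : Adm n M')
    (h0 : M.coeff (0, 0) = 1) (h0' : M'.coeff (0, 0) = 1)
    (hne : ∃ p q, (M - M').coeff (p, q) ≠ 0) :
    ∀ (k : ℕ) (f : MvPolynomial (ℤ × ℤ) ℤ), (∀ m ∈ f.support, m.degree ≤ k) →
      (∀ m ∈ f.support, ∀ w ∈ m.support, Om n (n + T) w) →
      (∀ A, Adm T A → ev f (M * A) = ev f (M' * A)) → f.vars = ∅ := by
  classical
  intro k
  induction k using Nat.strong_induction_on with
  | _ k ih =>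
    intro f hdeg hf inv
    by_contra hvars
    obtain ⟨w, hw, hmax⟩ := f.vars.exists_max_image (fun x => toLex x)
      (Finset.nonempty_iff_ne_empty.mpr hvars)
    obtain ⟨m0, hm0, hwm0⟩ := MvPolynomial.mem_vars w |>.mp hw
    have hOw : Om n (n + T) w := hf m0 hm0 w hwm0
    have hm0w : 1 ≤ m0 w := Nat.one_le_iff_ne_zero.mpr (Finsupp.mem_support_iff.mp hwm0)
    have hsplit : ∀ m : (ℤ × ℤ) →₀ ℕ, 1 ≤ m w →
        m - Finsupp.single w 1 + Finsupp.single w 1 = m := by
      intro m hm
      exact tsub_add_cancel_of_le (Finsupp.single_le_iff.mpr hm)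
    set g := MvPolynomial.pderiv w f with hg
    have hgs : ∀ m ∈ g.support, m + Finsupp.single w 1 ∈ f.support := by
      intro m hm
      rw [MvPolynomial.mem_support_iff, hg, MvPolynomial.coeff_pderiv] at hm
      rw [MvPolynomial.mem_support_iff]
      intro h1
      rw [h1, zero_mul] at hm
      exact hm rfl
    have hk : 1 ≤ k := by
      have h1 := hdeg m0 hm0
      have h2 : m0 w ≤ m0.degree := Finsupp.le_degree w m0
      omega
    obtain ⟨w1, w2⟩ := w
    have hB : Adm (T : ℤ) (Sym T w1 w2) := by
      have h1 := hOw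
      unfold Om at h1
      simp only at h1
      have h2 : 0 ≤ n := by
        have := hM.supp 0 0 (by rw [h0]; exact one_ne_zero)
        omega
      exact adm_sym (by omega) (by omega) (by omega) (by omega)
    -- the derivative is invariant
    have hginv : ∀ A, Adm T A → ev g (M * A) = ev g (M' * A) := by
      intro A hA
      obtain ⟨s, hs1, hs2⟩ := deriv_id inv hA hB
      have key : ∀ (N : Lau), Adm n N → (∀ i, i ∉ s → (N * Sym T w1 w2).coeff i = 0) →
          ∑ i ∈ s, ev (MvPolynomial.pderiv i f) (N * A) * (N * Sym T w1 w2).coeff i =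
            ev g (N * A) * (N * Sym T w1 w2).coeff (w1, w2) := by
        intro N hN hNs
        rw [Finset.sum_eq_single (w1, w2)]
        · intro i _ hi
          by_cases hiv : i ∈ f.vars
          · apply mul_eq_zero_of_right
            obtain ⟨m1, hm1, him1⟩ := MvPolynomial.mem_vars i |>.mp hiv
            have hOi := hf m1 hm1 i him1
            have hle := hmax i hiv
            obtain ⟨a, b⟩ := i
            rw [Prod.Lex.toLex_le_toLex] at hle
            simp only at hle
            refine lower_zero hN hOw hOi ?_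
            have : ¬ (a = w1 ∧ b = w2) := by
              rintro ⟨h1, h2⟩
              exact hi (by rw [h1, h2])
            omega
          · rw [MvPolynomial.pderiv_eq_zero_of_notMem_vars hiv]
            unfold ev
            rw [map_zero, zero_mul]
        · intro hn
          rw [hNs _ hn, mul_zero]
      rw [key M hM (fun i hi => (hs1 i hi).1), key M' hM' (fun i hi => (hs1 i hi).2),
        lead hM h0 hOw, lead hM' h0' hOw] at hs2
      refine mul_right_cancel₀ ?_ hs2
      split_ifs <;> norm_num
    have hgvars := ih (k - 1) (by omega) g (by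
        intro m hm
        have h1 := hdeg _ (hgs m hm)
        rw [map_add, Finsupp.degree_single] at h1
        omega) (by
        intro m hm w' hw'
        refine hf _ (hgs m hm) w' ?_
        rw [Finsupp.mem_support_iff] at hw' ⊢
        rw [Finsupp.add_apply]
        omega) hginv
    have hg0 : ∀ m, MvPolynomial.coeff m g = 0 := by
      intro m
      by_cases hm : m = 0
      · subst hm
        rw [hg, MvPolynomial.coeff_pderiv, zero_add, linear_zero hM hM' hne hf inv, zero_mul]
      · by_contra h1
        obtain ⟨i, hi⟩ := Finsupp.ne_iff.mp hm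
        have h2 : i ∈ g.vars := MvPolynomial.mem_vars i |>.mpr
          ⟨m, MvPolynomial.mem_support_iff.mpr h1, Finsupp.mem_support_iff.mpr hi⟩
        rw [hgvars] at h2
        exact absurd h2 (Finset.notMem_empty i)
    have h3 := hg0 (m0 - Finsupp.single (w1, w2) 1)
    rw [hg, MvPolynomial.coeff_pderiv, hsplit m0 hm0w] at h3
    rcases mul_eq_zero.mp h3 with h4 | h4
    · exact MvPolynomial.mem_support_iff.mp hm0 h4
    · omega

end Pool.Agent.Helper13.IH
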